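import Pool.Agent.H.MP_4451bf_co.A

namespace Pool.Agent.H.MP_1a5e21_co

open Finset Classical

theorem ch_avoid (w n : ℕ) {x : ℝ} (hx : 0 ≤ x) (h : x * n ≤ w) (d : ℕ) : ∀ a, a + d ≤ n →
    (a.choose w : ℝ) ≤ (a + d).choose w * Real.exp (-x) ^ d := by
  induction d with
  | zero => intro a _; simp
  | succ d ih =>
    intro a ha
    have h1 := ih (a + 1) (by omega)
    have h2 : (a.choose w : ℝ) * (a + 1) = (a + 1).choose w * ((a + 1 - w : ℕ) : ℝ) := by
      exact_mod_cast Nat.choose_mul_succ_eq a w
    have h3 : ((a + 1 - w : ℕ) : ℝ) ≤ Real.exp (-x) * (a + 1) := by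
      rcases le_total w (a + 1) with e | e
      · rw [Nat.cast_sub e]
        have a1 : (a : ℝ) + 1 ≤ n := by exact_mod_cast (show a + 1 ≤ n by omega)
        have := mul_le_mul_of_nonneg_left a1 hx
        have := mul_le_mul_of_nonneg_right (Real.add_one_le_exp (-x))
          (show (0 : ℝ) ≤ a + 1 by positivity)
        push_cast
        linarith
      · rw [Nat.sub_eq_zero_of_le e]; simp only [Nat.cast_zero]; positivity
    have h4 : (a.choose w : ℝ) ≤ (a + 1).choose w * Real.exp (-x) := by
      refine le_of_mul_le_mul_right ?_ (show (0 : ℝ) < a + 1 by positivity)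
      rw [h2, mul_assoc]
      exact mul_le_mul_of_nonneg_left h3 (by positivity)
    rw [show a + (d + 1) = a + 1 + d by omega, pow_succ, ← mul_assoc]
    exact h4.trans (mul_le_mul_of_nonneg_right h1 (by positivity))

theorem ch_contain (a c : ℕ) {y : ℝ} (hy : 0 ≤ y) (s : ℕ) (h : y * (a + s) ≤ c) :
    ((a + s).choose (c + s) : ℝ) * y ^ s ≤ a.choose c := by
  induction s with
  | zero => simp
  | succ s ih =>
    push_cast at h
    have h1 := ih (by nlinarith)
    have h2 : ((a : ℝ) + s + 1) * (a + s).choose (c + s) =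
        (a + s + 1).choose (c + s + 1) * (c + s + 1) := by
      exact_mod_cast Nat.add_one_mul_choose_eq (a + s) (c + s)
    have h3 : ((a + s + 1).choose (c + s + 1) : ℝ) * y ≤ (a + s).choose (c + s) := by
      refine le_of_mul_le_mul_right ?_ (show (0 : ℝ) < a + s + 1 by positivity)
      rw [mul_comm _ ((a : ℝ) + s + 1), mul_comm _ ((a : ℝ) + s + 1), h2]
      have : (0 : ℝ) ≤ s := by positivity
      have := mul_le_mul_of_nonneg_left (show y * (a + s + 1) ≤ c + s + 1 by linarith)
        (show (0 : ℝ) ≤ (a + s + 1).choose (c + s + 1) by positivity)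
      linarith
    rw [← add_assoc, ← add_assoc, pow_succ', ← mul_assoc]
    exact (mul_le_mul_of_nonneg_right h3 (by positivity)).trans h1

theorem mode (m w : ℕ) {p : ℝ} (h0 : 0 < p) (h1 : p < 1) (h : p * m = w) :
    1 ≤ (m + 1) * (p ^ w * (1 - p) ^ (m - w) * m.choose w) := by
  let t : ℕ → ℝ := fun j => p ^ j * (1 - p) ^ (m - j) * m.choose j
  have q0 : 0 < 1 - p := by linarith
  have t0 : ∀ j, 0 ≤ t j := fun j => by positivity
  have rc : ∀ j, j < m → t (j + 1) * ((j + 1) * (1 - p)) = t j * ((m - j) * p) := by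
    intro j hj
    have e : (m.choose (j + 1) : ℝ) * (j + 1) = m.choose j * (m - j) := by
      rw [← Nat.cast_sub hj.le]; exact_mod_cast Nat.choose_succ_right_eq m j
    simp only [t]
    rw [show m - j = m - (j + 1) + 1 by omega, pow_succ, pow_succ]
    linear_combination (p ^ j * p * (1 - p) ^ (m - (j + 1)) * (1 - p)) * e
  have wm : w ≤ m := by
    have : (w : ℝ) ≤ m := by rw [← h]; exact mul_le_of_le_one_left (by positivity) h1.le
    exact_mod_cast this
  have up : ∀ i, i ≤ w → t (w - i) ≤ t w := by
    intro i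
    induction i with
    | zero => intro _; simp
    | succ i ih =>
      intro hi
      refine le_trans ?_ (ih (by omega))
      obtain ⟨j, hj⟩ : ∃ j, w = j + (i + 1) := ⟨w - (i + 1), by omega⟩
      rw [show w - (i + 1) = j by omega, show w - i = j + 1 by omega]
      refine le_of_mul_le_mul_right ?_ (show 0 < ((j : ℝ) + 1) * (1 - p) by positivity)
      rw [rc j (by omega)]
      refine mul_le_mul_of_nonneg_left ?_ (t0 j)
      have : (j : ℝ) + 1 ≤ w := by exact_mod_cast (show j + 1 ≤ w by omega)
      linarith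
  have dn : ∀ i, w + i ≤ m → t (w + i) ≤ t w := by
    intro i
    induction i with
    | zero => intro _; simp
    | succ i ih =>
      intro hi
      refine le_trans ?_ (ih (by omega))
      refine le_of_mul_le_mul_right ?_ (show 0 < (((w + i : ℕ) : ℝ) + 1) * (1 - p) by positivity)
      rw [← add_assoc, rc (w + i) (by omega)]
      refine mul_le_mul_of_nonneg_left ?_ (t0 _)
      have : (0 : ℝ) ≤ i := by positivity
      push_cast
      linarith
  have s := add_pow p (1 - p) m
  rw [add_sub_cancel, one_pow] at s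
  refine s.le.trans ?_
  refine (Finset.sum_le_card_nsmul _ _ (t w) fun j hj => ?_).trans (by simp [t])
  rcases le_total j w with e | e
  · have := up (w - j) (by omega)
    rwa [show w - (w - j) = j by omega] at this
  · have := dn (j - w) (by have := Finset.mem_range.1 hj; omega)
    rwa [show w + (j - w) = j by omega] at this

theorem orbit {G X : Type} [Group G] [Fintype G] [Fintype X] [MulAction G X] (R : X → X → Prop)
    (hR : ∀ (g : G) x y, R x y → R (g • x) (g • y)) (s : X → X) (hs : Function.Injective s)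
    (h : ∀ x, ∃ g : G, R x (g • s x)) : ∃ σ : Equiv.Perm X, ∀ x, R x (σ x) := by
  choose γ hγ using h
  obtain ⟨f, f1, f2⟩ := (Fintype.all_card_le_filter_rel_iff_exists_injective R).1 (fun A => by
    have := Finset.card_le_card_of_injOn (s := A ×ˢ (univ : Finset G))
      (t := (univ.filter fun b => ∃ a ∈ A, R a b) ×ˢ (univ : Finset G))
      (fun z => ((z.2 * γ (z.2⁻¹ • z.1)) • s (z.2⁻¹ • z.1), z.2 * γ (z.2⁻¹ • z.1)))
      (fun z hz => by
        simp only [Finset.coe_product, Set.mem_prod, Finset.mem_coe, Finset.mem_filter,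
          Finset.mem_univ, true_and, and_true] at hz ⊢
        refine ⟨z.1, hz, ?_⟩
        have := hR z.2 _ _ (hγ (z.2⁻¹ • z.1))
        rwa [smul_inv_smul, ← mul_smul] at this)
      (fun z _ z' _ e => by
        obtain ⟨e1, e2⟩ := Prod.ext_iff.1 e
        simp only at e1 e2
        rw [e2] at e1
        have e3 := hs (MulAction.injective _ e1)
        rw [e3] at e2
        have e4 := mul_right_cancel e2
        rw [e4] at e3
        exact Prod.ext (MulAction.injective _ e3) e4)
    rw [Finset.card_product, Finset.card_product] at this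
    exact Nat.le_of_mul_le_mul_right this (Finset.card_pos.2 Finset.univ_nonempty))
  exact ⟨Equiv.ofBijective f (Finite.injective_iff_bijective.1 f1), f2⟩

theorem pairing {G X κ : Type} [Group G] [Fintype G] [Fintype X] [MulAction G X] [Fintype κ]
    [Nonempty κ] (R : X → X → Prop) (hR : ∀ (g : G) x y, R x y → R (g • x) (g • y))
    (sy : ∀ x y, R x y → R y x) (T : X → Prop) (hT : ∀ x, T x → ∃ g : G, R x (g • x))
    (key : X → κ) (P : κ → X → Prop)
    (hP : ∀ x y, ¬ T x → P (key x) y → T y ∧ ∃ g : G, R x (g • y))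
    (hc : ∀ c, Fintype.card κ * (univ.filter fun x => ¬ T x ∧ key x = c).card ≤
      (univ.filter (P c)).card) : ∃ σ : Equiv.Perm X, ∀ x, R x (σ x) := by
  obtain ⟨ι, i1, i2⟩ := (Fintype.all_card_le_filter_rel_iff_exists_injective
    (fun (x : {x // ¬ T x}) y => P (key x.1) y)).1 (fun A => by
      rcases A.eq_empty_or_nonempty with rfl | hA
      · simp
      obtain ⟨c, -, hc'⟩ := Finset.exists_max_image univ
        (fun c => (A.filter fun x => key x.1 = c).card) Finset.univ_nonempty
      have a1 : A.card ≤ Fintype.card κ * (A.filter fun x => key x.1 = c).card := by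
        rw [Finset.card_eq_sum_card_fiberwise (f := fun x => key x.1) (t := univ) (by simp)]
        exact (Finset.sum_le_card_nsmul _ _ _ hc').trans (by simp)
      have a2 : (A.filter fun x => key x.1 = c).card ≤
          (univ.filter fun x => ¬ T x ∧ key x = c).card :=
        Finset.card_le_card_of_injOn Subtype.val (fun x hx => by
          simp only [Finset.coe_filter, Set.mem_ofPred_eq, Finset.mem_univ, true_and] at hx ⊢
          exact ⟨x.2, hx.2⟩) Subtype.val_injective.injOn
      obtain ⟨a, ha⟩ : (A.filter fun x => key x.1 = c).Nonempty := by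
        rw [← Finset.card_pos]
        have := Finset.card_pos.2 hA
        by_contra hn
        rw [show (A.filter fun x => key x.1 = c).card = 0 by omega] at a1
        omega
      refine a1.trans ((Nat.mul_le_mul_left _ a2).trans ((hc c).trans
        (Finset.card_le_card fun y hy => ?_)))
      obtain ⟨b1, b2⟩ := Finset.mem_filter.1 ha
      exact Finset.mem_filter.2 ⟨Finset.mem_univ _, a, b1, b2 ▸ (Finset.mem_filter.1 hy).2⟩)
  have iT : ∀ a, T (ι a) := fun a => (hP _ _ a.2 (i2 a)).1
  let s : X → X := fun x =>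
    if h : ¬ T x then ι ⟨x, h⟩ else if h' : ∃ a, ι a = x then h'.choose.1 else x
  have s1 : ∀ a : {x // ¬ T x}, s a.1 = ι a := fun a => dif_pos a.2
  have s2 : ∀ a, s (ι a) = a.1 := fun a => by
    have h' : ∃ b, ι b = ι a := ⟨a, rfl⟩
    simp only [s]
    rw [dif_neg (not_not.2 (iT a)), dif_pos h', i1 h'.choose_spec]
  have s3 : ∀ x, T x → (¬ ∃ a, ι a = x) → s x = x := fun x h1 h2 => by
    simp only [s]
    rw [dif_neg (not_not.2 h1), dif_neg h2]
  have tri : ∀ x, (∃ a : {x // ¬ T x}, a.1 = x) ∨ (∃ a, ι a = x) ∨ (T x ∧ s x = x) := by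
    intro x
    by_cases h1 : T x
    · by_cases h2 : ∃ a, ι a = x
      · exact Or.inr (Or.inl h2)
      · exact Or.inr (Or.inr ⟨h1, s3 x h1 h2⟩)
    · exact Or.inl ⟨⟨x, h1⟩, rfl⟩
  refine orbit R hR s (Function.Involutive.injective fun x => ?_) fun x => ?_
  · rcases tri x with ⟨a, rfl⟩ | ⟨a, rfl⟩ | ⟨-, h⟩
    · rw [s1, s2]
    · rw [s2, s1]
    · rw [h, h]
  · rcases tri x with ⟨a, rfl⟩ | ⟨a, rfl⟩ | ⟨h1, h⟩
    · rw [s1]; exact (hP _ _ a.2 (i2 a)).2
    · obtain ⟨g, hg⟩ := (hP _ _ a.2 (i2 a)).2
      refine ⟨g⁻¹, ?_⟩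
      have := hR g⁻¹ _ _ (sy _ _ hg)
      rwa [inv_smul_smul, ← s2] at this
    · rw [h]; exact hT x h1

theorem align {M : ℕ} (E F : Finset (Fin M)) (a b : Fin M) (ha : a ∉ E) (hb : b ∉ F)
    (h : E.card + F.card < M) : ∃ g : Equiv.Perm (Fin M), g b = a ∧ ∀ j ∈ F, g j ∉ E := by
  obtain ⟨F', h1, h2⟩ := Finset.exists_subset_card_eq (s := (insert a E)ᶜ) (n := F.card) (by
    rw [Finset.card_compl, Finset.card_insert_of_notMem ha, Fintype.card_fin]; omega)
  let e := Finset.equivOfCardEq h2.symm
  have k : ∀ j : F, (e j).1 ≠ a ∧ (e j).1 ∉ E := fun j => by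
    simpa using h1 (e j).2
  obtain ⟨g, hg⟩ := Equiv.Perm.exists_extending_pair
    (fun o : Option F => o.elim b Subtype.val) (fun o : Option F => o.elim a (fun j => (e j).1))
    (by
      rintro (_ | i) (_ | j) h
      · rfl
      · exact absurd (show b ∈ F from (show b = j.1 from h) ▸ j.2) hb
      · exact absurd (show b ∈ F from (show i.1 = b from h) ▸ i.2) hb
      · exact congrArg some (Subtype.ext h))
    (by
      rintro (_ | i) (_ | j) h
      · rfl
      · exact absurd (show a = (e j).1 from h).symm (k j).1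
      · exact absurd h (k i).1
      · exact congrArg some (e.injective (Subtype.ext h)))
  exact ⟨g, hg none, fun j hj => (show g j = (e ⟨j, hj⟩).1 from hg (some ⟨j, hj⟩)) ▸ (k _).2⟩

theorem cnt {Ω : Type} [Fintype Ω] [DecidableEq Ω] (w : ℕ) (S D : Finset Ω) (hs : S.card ≤ w)
    {x : ℝ} (hx : 0 ≤ x)
    (h : x * (Fintype.card Ω - S.card : ℕ) ≤ (w - S.card : ℕ)) :
    (((univ.powersetCard w).filter fun B => S ⊆ B ∧ Disjoint B D).card : ℝ) ≤
      (Fintype.card Ω - S.card).choose (w - S.card) * Real.exp (-x) ^ D.card := by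
  by_cases hd : S ⊆ Dᶜ
  · have e : ((univ.powersetCard w).filter fun B => S ⊆ B ∧ Disjoint B D) =
        (Dᶜ.powersetCard w).filter (S ⊆ ·) := by
      ext B
      simp only [Finset.mem_filter, Finset.mem_powersetCard, Finset.subset_univ, true_and,
        Finset.subset_compl_iff_disjoint_right]
      tauto
    have c1 := Finset.card_le_card hd
    have c2 := Finset.card_add_card_compl D
    have := ch_avoid (w - S.card) _ hx h D.card (Dᶜ.card - S.card) (by omega)
    rw [show Dᶜ.card - S.card + D.card = Fintype.card Ω - S.card by omega] at this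
    rw [e]
    convert this using 2
    convert Finset.card_filter_powersetCard_subset S Dᶜ w hd hs
  · rw [Finset.filter_eq_empty_iff.2]
    · simp only [Finset.card_empty, Nat.cast_zero]; positivity
    · rintro B - ⟨h1, h2⟩
      exact hd (h1.trans (Finset.subset_compl_iff_disjoint_right.2 h2))

end Pool.Agent.H.MP_1a5e21_co
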