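import Pool.Agent.H.MP_1a5e21_co.A

namespace Pool.Agent.H.MP_1a5e21_co

open Finset Classical

abbrev U (d k : ℕ) := Fin (d + 1) → Fin k
abbrev Om (M b d k h : ℕ) := (Fin M × Fin b) ⊕ (U d k × Fin h)

variable {M b d k h : ℕ}

def Emp (A : Finset (Om M b d k h)) (j : Fin M) : Prop := ∀ i, Sum.inl (j, i) ∉ A
def Full (A : Finset (Om M b d k h)) (j : Fin M) : Prop := ∀ i, Sum.inl (j, i) ∈ A
def Ag (u v : U d k) : Prop := ∃ i, v i = u i
def Miss (A : Finset (Om M b d k h)) (u : U d k) : Prop := ∀ v, Ag u v → ∀ x, Sum.inr (v, x) ∉ A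
def PF (A : Finset (Om M b d k h)) (u : U d k) : Prop := ∀ x, Sum.inr (u, x) ∈ A
def PM (A : Finset (Om M b d k h)) (u : U d k) : Prop := ∃ x, Sum.inr (u, x) ∈ A
def ZF (A : Finset (Om M b d k h)) (u : U d k) : Prop := ∀ v, Ag u v → PF A v

def R (A B : Finset (Om M b d k h)) : Prop :=
  (∀ j, ¬ (Emp A j ∧ Emp B j)) ∧ (∀ u, Miss B u → PF A u) ∧ (∀ u, Miss A u → PF B u) ∧
    ((∃ j, Full A j ∧ Full B j) ∨ (∃ u, PM A u ∧ ZF B u) ∨ ∃ u, PM B u ∧ ZF A u)

theorem R.symm {A B : Finset (Om M b d k h)} (r : R A B) : R B A := by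
  obtain ⟨r1, r2, r3, r4⟩ := r
  refine ⟨fun j e => r1 j e.symm, r3, r2, ?_⟩
  rcases r4 with ⟨j, a, c⟩ | r4 | r4
  · exact Or.inl ⟨j, c, a⟩
  · exact Or.inr (Or.inr r4)
  · exact Or.inr (Or.inl r4)

theorem R.inter {A B A' B' : Finset (Om M b d k h)} (r : R A B) (r' : R A' B')
    (h1 : Disjoint A A') (h2 : Disjoint B B') : False := by
  rw [Finset.disjoint_left] at h1 h2
  rcases r.2.2.2 with ⟨j, a, c⟩ | ⟨u, ⟨x, a⟩, c⟩ | ⟨u, ⟨x, a⟩, c⟩
  · exact r'.1 j ⟨fun i => h1 (a i), fun i => h2 (c i)⟩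
  · exact h1 a (r'.2.1 u (fun v hv y => h2 (c v hv y)) x)
  · exact h2 a (r'.2.2.1 u (fun v hv y => h1 (c v hv y)) x)

def act (g : Equiv.Perm (Fin M)) : Om M b d k h ≃ Om M b d k h :=
  Equiv.sumCongr (Equiv.prodCongr g (Equiv.refl _)) (Equiv.refl _)

def mv (g : Equiv.Perm (Fin M)) (A : Finset (Om M b d k h)) : Finset (Om M b d k h) :=
  A.map (act g).toEmbedding

theorem mv_inl (g : Equiv.Perm (Fin M)) (A : Finset (Om M b d k h)) (j : Fin M) (i : Fin b) :
    Sum.inl (j, i) ∈ mv g A ↔ Sum.inl (g⁻¹ j, i) ∈ A := by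
  rw [mv, Finset.mem_map_equiv]; rfl

theorem mv_inr (g : Equiv.Perm (Fin M)) (A : Finset (Om M b d k h)) (z : U d k × Fin h) :
    Sum.inr z ∈ mv g A ↔ Sum.inr z ∈ A := by
  rw [mv, Finset.mem_map_equiv]; rfl

@[reducible] def ma (M b d k h w : ℕ) :
    MulAction (Equiv.Perm (Fin M)) {A : Finset (Om M b d k h) // A.card = w} where
  smul g A := ⟨mv g A.1, by rw [mv, Finset.card_map, A.2]⟩
  one_smul A := Subtype.ext (by
    change mv 1 A.1 = A.1
    ext (⟨j, i⟩ | z)
    · simp [mv_inl]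
    · simp [mv_inr])
  mul_smul g g' A := Subtype.ext (by
    change mv (g * g') A.1 = mv g (mv g' A.1)
    ext (⟨j, i⟩ | z)
    · simp [mv_inl]
    · simp [mv_inr])

theorem R.mv {A B : Finset (Om M b d k h)} (r : R A B) (g : Equiv.Perm (Fin M)) :
    R (mv g A) (mv g B) := by
  obtain ⟨r1, r2, r3, r4⟩ := r
  simp only [R, Emp, Full, Miss, PF, PM, ZF, mv_inl, mv_inr] at *
  refine ⟨fun j => r1 _, r2, r3, ?_⟩
  rcases r4 with ⟨j, a⟩ | r4
  · exact Or.inl ⟨g j, by simpa using a⟩
  · exact Or.inr r4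

noncomputable def ee (A : Finset (Om M b d k h)) : ℕ := (univ.filter (Emp A)).card

theorem compat {A B : Finset (Om M b d k h)} (a c : Fin M) (ha : ¬ Emp A a) (hc : ¬ Emp B c)
    (he : ee A + ee B < M) (h2 : ∀ u, ¬ Miss B u) (h3 : ∀ u, Miss A u → PF B u)
    (h4 : (Full A a ∧ Full B c) ∨ ∃ u, PM A u ∧ ZF B u) : ∃ g, R A (mv g B) := by
  obtain ⟨g, g1, g2⟩ := align (univ.filter (Emp A)) (univ.filter (Emp B)) a c (by simpa using ha)
    (by simpa using hc) he
  refine ⟨g, fun j ⟨e1, e2⟩ => ?_, fun u hu => absurd ?_ (h2 u), ?_, ?_⟩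
  · refine g2 (g⁻¹ j) ?_ (by simpa using e1)
    simpa [Emp, mv_inl] using e2
  · simpa [Miss, mv_inr] using hu
  · simpa [PF, mv_inr] using h3
  · rcases h4 with ⟨f1, f2⟩ | h4
    · exact Or.inl ⟨a, f1, by simpa [Full, mv_inl, ← g1] using f2⟩
    · exact Or.inr (Or.inl (by simpa [ZF, PF, mv_inr] using h4))

theorem L1 (w : ℕ) (S : Finset (Om M b d k h)) (hs : S.card ≤ w) {x : ℝ} (hx : 0 ≤ x)
    (hh : x * (Fintype.card (Om M b d k h) - S.card : ℕ) ≤ (w - S.card : ℕ)) :
    (((univ.powersetCard w).filter fun B => S ⊆ B ∧ M ≤ 2 * ee B).card : ℝ) ≤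
      (Fintype.card (Om M b d k h) - S.card).choose (w - S.card) *
        Real.exp (M - x * b * M / 2) := by
  let D : Finset (Fin M) → Finset (Om M b d k h) := fun J => (J ×ˢ univ).map Function.Embedding.inl
  have sub : ((univ.powersetCard w).filter fun B => S ⊆ B ∧ M ≤ 2 * ee B) ⊆
      (univ.filter fun J : Finset (Fin M) => M ≤ 2 * J.card).biUnion fun J =>
        (univ.powersetCard w).filter fun B => S ⊆ B ∧ Disjoint B (D J) := by
    intro B hB
    obtain ⟨b1, b2, b3⟩ := Finset.mem_filter.1 hB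
    refine Finset.mem_biUnion.2 ⟨univ.filter (Emp B), Finset.mem_filter.2 ⟨Finset.mem_univ _, b3⟩,
      Finset.mem_filter.2 ⟨b1, b2, Finset.disjoint_right.2 fun z hz => ?_⟩⟩
    obtain ⟨⟨j, i⟩, z1, rfl⟩ := Finset.mem_map.1 hz
    exact (Finset.mem_filter.1 (Finset.mem_product.1 z1).1).2 i
  have c1 := (Finset.card_le_card sub).trans Finset.card_biUnion_le
  have c2 := (Nat.cast_le (α := ℝ)).2 c1
  push_cast at c2
  refine c2.trans ((Finset.sum_le_card_nsmul _ _
    (((Fintype.card (Om M b d k h) - S.card).choose (w - S.card) : ℝ) *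
      Real.exp (-(x * b * M / 2))) fun J hJ => ?_).trans ?_)
  · refine le_trans (cnt w S (D J) hs hx hh) ?_
    refine mul_le_mul_of_nonneg_left ?_ (by positivity)
    rw [← Real.exp_nat_mul, Real.exp_le_exp]
    have : (M : ℝ) ≤ 2 * J.card := by exact_mod_cast (Finset.mem_filter.1 hJ).2
    have := mul_le_mul_of_nonneg_left this (show (0 : ℝ) ≤ x * b by positivity)
    simp [D]
    linarith
  · have : ((univ.filter fun J : Finset (Fin M) => M ≤ 2 * J.card).card : ℝ) ≤ Real.exp M := by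
      have a1 : (univ.filter fun J : Finset (Fin M) => M ≤ 2 * J.card).card ≤ 2 ^ M :=
        (Finset.card_le_univ _).trans (by simp)
      have a2 : (2 : ℝ) ^ M ≤ Real.exp 1 ^ M :=
        pow_le_pow_left₀ (by norm_num) (by linarith [Real.add_one_le_exp 1]) M
      rw [← Real.exp_nat_mul, mul_one] at a2
      exact le_trans (by exact_mod_cast a1) a2
    rw [nsmul_eq_mul, sub_eq_add_neg, Real.exp_add, mul_left_comm]
    gcongr

theorem L2 (w : ℕ) {p : ℝ} (h0 : 0 < p) (h1 : p < 1) (hp : p * Fintype.card (Om M b d k h) = w) :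
    (((univ.powersetCard w).filter fun A : Finset (Om M b d k h) => ∀ j, ¬ Full A j).card : ℝ) ≤
      (Fintype.card (Om M b d k h)).choose w *
        ((Fintype.card (Om M b d k h) + 1) * Real.exp (-(p ^ b * M))) := by
  let S : Fin M → Finset (Om M b d k h) := fun j => ({j} ×ˢ univ).map Function.Embedding.inl
  have e := MP_4451bf_co.E_miss p S b (fun j => by simp [S]) (fun i j hij => by
    simp only [S]
    rw [Finset.disjoint_map]
    exact Finset.disjoint_product.2 (Or.inl (by simpa using hij)))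
  have fl : ∀ A j, S j ⊆ A ↔ Full A j := fun A j => by simp [S, Full, Finset.subset_iff]
  simp only [fl, Fintype.card_fin] at e
  set m := Fintype.card (Om M b d k h)
  have q0 : 0 < 1 - p := by linarith
  have a1 : (((univ.powersetCard w).filter fun A : Finset (Om M b d k h) =>
      ∀ j, ¬ Full A j).card : ℝ) * (p ^ w * (1 - p) ^ (m - w)) ≤ (1 - p ^ b) ^ M := by
    rw [← e, ← nsmul_eq_mul, ← Finset.sum_const]
    refine le_trans (le_of_eq (Finset.sum_congr rfl fun A hA => ?_))
      (Finset.sum_le_sum_of_subset_of_nonneg (Finset.subset_univ _) fun A _ _ =>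
        mul_nonneg (MP_4451bf_co.wt_nonneg h0.le h1.le A) (by split_ifs <;> norm_num))
    obtain ⟨k1, k2⟩ := Finset.mem_filter.1 hA
    rw [if_pos k2, mul_one, MP_4451bf_co.wt, (Finset.mem_powersetCard.1 k1).2]
  have a2 : (1 - p ^ b) ^ M ≤ Real.exp (-(p ^ b * M)) := by
    calc _ ≤ Real.exp (-p ^ b) ^ M := pow_le_pow_left₀
          (by linarith [pow_le_one₀ h0.le h1.le (n := b)])
          (by linarith [Real.add_one_le_exp (-p ^ b)]) M
      _ = _ := by rw [← Real.exp_nat_mul]; congr 1; ring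
  have a3 := mul_le_mul_of_nonneg_left (mode m w h0 h1 hp)
    (Nat.cast_nonneg (α := ℝ) ((univ.powersetCard w).filter fun A : Finset (Om M b d k h) =>
      ∀ j, ¬ Full A j).card)
  have a4 := mul_le_mul_of_nonneg_left (a1.trans a2)
    (show (0 : ℝ) ≤ (m + 1) * m.choose w by positivity)
  linarith

theorem Zc (u : U d k) : k ^ d ≤ (univ.filter (Ag u)).card ∧
    (univ.filter (Ag u)).card ≤ (d + 1) * k ^ d := by
  have e : ∀ i, (univ.filter fun v : U d k => v i = u i).card = k ^ d := fun i => by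
    simpa using Fintype.card_filter_piFinset_const_eq_of_mem (univ : Finset (Fin k)) i
      (Finset.mem_univ (u i))
  constructor
  · rw [← e 0]
    exact Finset.card_le_card fun v hv => by simp at hv ⊢; exact ⟨0, hv⟩
  · have : univ.filter (Ag u) ⊆ univ.biUnion fun i => univ.filter fun v : U d k => v i = u i :=
      fun v hv => by simpa [Ag] using hv
    refine (Finset.card_le_card this).trans (Finset.card_biUnion_le.trans ?_)
    simp [e]

theorem L3 (w : ℕ) (u : U d k) {x : ℝ} (hx : 0 ≤ x) (hh : x * Fintype.card (Om M b d k h) ≤ w) :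
    (((univ.powersetCard w).filter fun A : Finset (Om M b d k h) => Miss A u).card : ℝ) ≤
      (Fintype.card (Om M b d k h)).choose w * Real.exp (-(x * (k ^ d * h))) := by
  let D : Finset (Om M b d k h) := ((univ.filter (Ag u)) ×ˢ univ).map Function.Embedding.inr
  have c := cnt w ∅ D (by simp) hx (by simpa using hh)
  simp only [Finset.card_empty, Nat.sub_zero] at c
  refine le_trans (le_trans ?_ c) (mul_le_mul_of_nonneg_left ?_ (by positivity))
  · refine Nat.cast_le.2 (Finset.card_le_card fun A hA => ?_)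
    obtain ⟨a1, a2⟩ := Finset.mem_filter.1 hA
    refine Finset.mem_filter.2 ⟨a1, Finset.empty_subset _,
      Finset.disjoint_right.2 fun z hz => ?_⟩
    obtain ⟨⟨v, y⟩, z1, rfl⟩ := Finset.mem_map.1 hz
    exact a2 v (Finset.mem_filter.1 (Finset.mem_product.1 z1).1).2 y
  · rw [← Real.exp_nat_mul, Real.exp_le_exp]
    have : (k : ℝ) ^ d ≤ (univ.filter (Ag u)).card := by exact_mod_cast (Zc u).1
    have := mul_le_mul_of_nonneg_left this (show (0 : ℝ) ≤ x * h by positivity)
    simp [D]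
    linarith

theorem L4 (A : Finset (Om M b d k h)) :
    4 ^ (d + 1) * ((univ.filter (Miss A)).card * (univ.filter (PM A)).card) ≤
      k ^ (d + 1) * k ^ (d + 1) ∧ A.card ≤ M * b + (univ.filter (PM A)).card * h := by
  constructor
  · let a : Fin (d + 1) → Finset (Fin k) := fun i => (univ.filter (PM A)).image (· i)
    have h1 : univ.filter (PM A) ⊆ Fintype.piFinset a := fun v hv =>
      Fintype.mem_piFinset.2 fun i => Finset.mem_image_of_mem _ hv
    have h2 : univ.filter (Miss A) ⊆ Fintype.piFinset fun i => (a i)ᶜ := fun u hu =>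
      Fintype.mem_piFinset.2 fun i => Finset.mem_compl.2 fun hi => by
        obtain ⟨v, v1, v2⟩ := Finset.mem_image.1 hi
        obtain ⟨x, hx⟩ := (Finset.mem_filter.1 v1).2
        exact (Finset.mem_filter.1 hu).2 v ⟨i, v2⟩ x hx
    refine (Nat.mul_le_mul_left _ (Nat.mul_le_mul (Finset.card_le_card h2)
      (Finset.card_le_card h1))).trans ?_
    rw [Fintype.card_piFinset, Fintype.card_piFinset, ← Finset.prod_mul_distrib, ← mul_pow,
      ← Fin.prod_const, ← Fin.prod_const, ← Finset.prod_mul_distrib]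
    refine Finset.prod_le_prod' fun i _ => ?_
    have := Finset.card_add_card_compl (a i)
    rw [Fintype.card_fin] at this
    generalize (a i).card = x at this ⊢
    generalize (a i)ᶜ.card = y at this ⊢
    subst this
    nlinarith [sq_nonneg ((x : ℤ) - y)]
  · rw [← A.card_toLeft_add_card_toRight]
    refine Nat.add_le_add ((Finset.card_le_univ _).trans (by simp)) ?_
    have : A.toRight ⊆ (univ.filter (PM A)) ×ˢ univ := fun z hz => by
      simp only [Finset.mem_product, Finset.mem_filter, Finset.mem_univ, true_and, and_true]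
      exact ⟨z.2, Finset.mem_toRight.1 hz⟩
    exact (Finset.card_le_card this).trans (by simp)

end Pool.Agent.H.MP_1a5e21_co
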