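import Pool.Agent.H.MP_1a5e21_co.B

namespace Pool.Agent.H.MP_1a5e21_co

open Finset Classical

variable {M b d k h : ℕ}

def T (A : Finset (Om M b d k h)) : Prop := 2 * ee A < M ∧ (∃ j, Full A j) ∧ ∀ u, ¬ Miss A u

noncomputable def cs (A : Finset (Om M b d k h)) : Fin 3 :=
  if M ≤ 2 * ee A then 0 else if ∀ j, ¬ Full A j then 1 else 2

noncomputable def key (u0 : U d k) (A : Finset (Om M b d k h)) : Finset (U d k) × U d k × Fin 3 :=
  (univ.filter (Miss A), if h : ∃ u, PM A u then h.choose else u0, cs A)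

noncomputable def SS (j0 : Fin M) (i0 : Fin b) (x0 : Fin h) (c : Finset (U d k) × U d k × Fin 3) :
    Finset (Om M b d k h) :=
  (({j0} ×ˢ univ) ∪ (if c.2.2 = 0 then univ ×ˢ {i0} else ∅)).disjSum
    ((univ ×ˢ {x0}) ∪ (c.1 ×ˢ univ) ∪ (if c.2.2 = 2 then ∅ else univ.filter (Ag c.2.1) ×ˢ univ))

theorem SS_card (j0 : Fin M) (i0 : Fin b) (x0 : Fin h) (c : Finset (U d k) × U d k × Fin 3) :
    (SS j0 i0 x0 c).card ≤ b + k ^ (d + 1) + (if c.2.2 = 0 then M else 0) + c.1.card * h +
      (if c.2.2 = 2 then 0 else (d + 1) * k ^ d * h) := by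
  rw [SS, Finset.card_disjSum]
  have a1 := Finset.card_union_le ({j0} ×ˢ (univ : Finset (Fin b)))
    (if c.2.2 = 0 then univ ×ˢ {i0} else ∅)
  have a2 := Finset.card_union_le (((univ : Finset (U d k)) ×ˢ {x0}) ∪ (c.1 ×ˢ univ))
    (if c.2.2 = 2 then ∅ else univ.filter (Ag c.2.1) ×ˢ univ)
  have a3 := Finset.card_union_le ((univ : Finset (U d k)) ×ˢ {x0}) (c.1 ×ˢ univ)
  have a4 : (if c.2.2 = 0 then (univ : Finset (Fin M)) ×ˢ {i0} else ∅).card =
      if c.2.2 = 0 then M else 0 := by split_ifs <;> simp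
  have a5 : (if c.2.2 = 2 then ∅ else univ.filter (Ag c.2.1) ×ˢ (univ : Finset (Fin h))).card ≤
      if c.2.2 = 2 then 0 else (d + 1) * k ^ d * h := by
    split_ifs
    · simp
    · simpa using Nat.mul_le_mul_right h (Zc c.2.1).2
  simp only [Finset.card_product, Finset.card_singleton, Finset.card_univ, Fintype.card_fin,
    Fintype.card_pi, Finset.prod_const] at a1 a3
  omega

theorem hT (i0 : Fin b) (A : Finset (Om M b d k h)) (t : T A) : ∃ g, R A (mv g A) := by
  obtain ⟨t1, ⟨j, t2⟩, t3⟩ := t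
  exact compat j j (fun e => e i0 (t2 i0)) (fun e => e i0 (t2 i0)) (by omega) t3
    (fun u hu => absurd hu (t3 u)) (Or.inl ⟨t2, t2⟩)

theorem hP (j0 : Fin M) (i0 : Fin b) (x0 : Fin h) (u0 : U d k) (A B : Finset (Om M b d k h))
    (hA : M * b < A.card) (h1 : SS j0 i0 x0 (key u0 A) ⊆ B) (h2 : 2 * ee B < M) :
    T B ∧ ∃ g, R A (mv g B) := by
  have pm : ∃ u, PM A u := by
    by_contra hn
    have := (L4 A).2
    rw [Finset.filter_eq_empty_iff.2 (fun u _ hu => hn ⟨u, hu⟩)] at this
    simp at this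
    omega
  have f0 : Full B j0 := fun i => h1 (by simp [SS])
  have m0 : ∀ u, ¬ Miss B u := fun u hu => hu u ⟨0, rfl⟩ x0 (h1 (by simp [SS]))
  have pf : ∀ u, Miss A u → PF B u := fun u hu x => h1 (by simp [SS, key, hu])
  have zf : cs A ≠ 2 → ∃ u, PM A u ∧ ZF B u := fun hc =>
    ⟨pm.choose, pm.choose_spec, fun v hv x => h1 (by simp [SS, key, hc, pm, hv])⟩
  refine ⟨⟨h2, ⟨j0, f0⟩, m0⟩, ?_⟩
  by_cases c0 : M ≤ 2 * ee A
  · have e : cs A = 0 := if_pos c0
    refine ⟨1, ?_⟩
    rw [show mv 1 B = B from congrArg Subtype.val ((ma M b d k h _).one_smul ⟨B, rfl⟩)]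
    exact ⟨fun j hj => hj.2 i0 (h1 (by simp [SS, key, e])), fun u hu => absurd hu (m0 u), pf,
      Or.inr (Or.inl (zf (by rw [e]; decide)))⟩
  by_cases c1 : ∀ j, ¬ Full A j
  · have e : cs A = 1 := by rw [cs, if_neg c0, if_pos c1]
    obtain ⟨a, ha⟩ : ∃ a, ¬ Emp A a := by
      by_contra hn
      push Not at hn
      rw [ee, Finset.filter_true_of_mem (fun a _ => hn a)] at c0
      simp at c0
      omega
    exact compat a j0 ha (fun e => e i0 (f0 i0)) (by omega) m0 pf
      (Or.inr (zf (by rw [e]; decide)))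
  · push Not at c1
    obtain ⟨a, ha⟩ := c1
    exact compat a j0 (fun e => e i0 (ha i0)) (fun e => e i0 (f0 i0)) (by omega) m0 pf
      (Or.inl ⟨ha, f0⟩)

theorem cls (r w : ℕ) (j0 : Fin M) (i0 : Fin b) (x0 : Fin h) (u0 : U d k) (G : ℝ) (hr : 2 ≤ r)
    (hm : Fintype.card (Om M b d k h) = r * w) (hw : w = 4 * b * M) (hb : 20 * r ^ 2 ≤ b)
    (H1 : 8 * r ^ 3 * k ≤ 4 ^ (d + 1)) (H2 : 32 * r ^ 2 * b * (d + 1) * r ^ b ≤ k)
    (H3 : k ^ (d + 1) ≤ M)
    (H4 : 2 * (Fintype.card (Finset (U d k) × U d k × Fin 3) : ℝ) *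
      Real.exp (2 * r * (b + k ^ (d + 1))) * (16 * r * b * r ^ b) ≤ Real.exp G)
    (H5 : G * (4 * r ^ b) ≤ M) (H6 : G * (2 * r) ≤ h) (c : Finset (U d k) × U d k × Fin 3) :
    Fintype.card (Finset (U d k) × U d k × Fin 3) *
      ((univ.powersetCard w).filter fun A : Finset (Om M b d k h) =>
        ¬ T A ∧ key u0 A = c).card ≤
      ((univ.powersetCard w).filter fun B : Finset (Om M b d k h) =>
        SS j0 i0 x0 c ⊆ B ∧ 2 * ee B < M).card := by
  set C := (univ.powersetCard w).filter fun A : Finset (Om M b d k h) => ¬ T A ∧ key u0 A = c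
    with hC
  rcases C.eq_empty_or_nonempty with e | ⟨A, hA⟩
  · rw [e]; simp
  obtain ⟨hA1, hA2, hA3⟩ := Finset.mem_filter.1 hA
  have hA4 := (Finset.mem_powersetCard.1 hA1).2
  have M0 : 0 < M := j0.pos
  have h0 : 0 < h := x0.pos
  have k0 : 0 < k := (u0 0).pos
  have bb0 : 0 < b := i0.pos
  have hm' : M * b + k ^ (d + 1) * h = r * w := by rw [← hm]; simp
  have I1 : 4 * r ^ 2 * c.1.card ≤ k ^ d := by
    obtain ⟨l1, l2⟩ := L4 A
    have e : c.1 = univ.filter (Miss A) := by rw [← hA3]; rfl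
    rw [← e] at l1
    rw [hA4] at l2
    generalize (univ.filter (PM A)).card = J at l1 l2
    have a1 : k ^ (d + 1) ≤ 2 * r * J := by
      refine Nat.le_of_mul_le_mul_right ?_ h0
      have : w ≤ 2 * (J * h) := by linarith [Nat.zero_le (M * b)]
      linarith [Nat.mul_le_mul_left r this, Nat.zero_le (M * b)]
    have a2 : 4 ^ (d + 1) * c.1.card ≤ 2 * r * k ^ (d + 1) := by
      refine Nat.le_of_mul_le_mul_right ?_ (show 0 < k ^ (d + 1) by positivity)
      calc _ ≤ 4 ^ (d + 1) * c.1.card * (2 * r * J) := Nat.mul_le_mul_left _ a1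
        _ = 2 * r * (4 ^ (d + 1) * (c.1.card * J)) := by ring
        _ ≤ 2 * r * (k ^ (d + 1) * k ^ (d + 1)) := Nat.mul_le_mul_left _ l1
        _ = _ := by ring
    refine Nat.le_of_mul_le_mul_right ?_ (show 0 < 2 * r * k by positivity)
    calc _ = 8 * r ^ 3 * k * c.1.card := by ring
      _ ≤ 4 ^ (d + 1) * c.1.card := Nat.mul_le_mul_right _ H1
      _ ≤ _ := a2.trans (le_of_eq (by ring))
  have I2 : 2 * r * ((d + 1) * k ^ d * h) * (4 * r ^ b) ≤ M := by
    refine Nat.le_of_mul_le_mul_right ?_ (show 0 < 4 * r * b by positivity)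
    calc _ = 32 * r ^ 2 * b * (d + 1) * r ^ b * (k ^ d * h) := by ring
      _ ≤ k * (k ^ d * h) := Nat.mul_le_mul_right _ H2
      _ = k ^ (d + 1) * h := by ring
      _ ≤ r * w := by omega
      _ = _ := by rw [hw]; ring
  have sc := SS_card j0 i0 x0 c
  set S := SS j0 i0 x0 c with hS
  have Q1 : 1 ≤ r ^ b := Nat.one_le_pow _ _ (by omega)
  have I3 : c.1.card * h ≤ (d + 1) * k ^ d * h := by
    refine Nat.mul_le_mul_right _ ?_
    exact ((Nat.le_mul_of_pos_left _ (by positivity)).trans I1).trans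
      (Nat.le_mul_of_pos_left _ (by omega))
  have s2 : 2 * S.card ≤ w := by
    have a1 : 2 * ((d + 1) * k ^ d * h) ≤ M := by
      refine le_trans ?_ I2
      calc _ ≤ (r * (4 * r ^ b)) * (2 * ((d + 1) * k ^ d * h)) :=
            Nat.le_mul_of_pos_left _ (by positivity)
        _ = _ := by ring
    have a2 : S.card ≤ b + 3 * M := by split_ifs at sc <;> omega
    have : 3 ≤ b := by linarith [Nat.one_le_pow 2 r (by omega)]
    linarith [Nat.mul_le_mul_right M this, Nat.le_mul_of_pos_right b M0]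
  set m := Fintype.card (Om M b d k h) with hmm
  set N : ℝ := (m.choose w : ℝ) with hN
  have r2 : (2 : ℝ) ≤ r := by exact_mod_cast hr
  have r0 : (0 : ℝ) < r := by linarith
  have Mr : (1 : ℝ) ≤ M := by exact_mod_cast M0
  have br : 20 * (r : ℝ) ^ 2 ≤ b := by exact_mod_cast hb
  have mr : (m : ℝ) = r * w := by exact_mod_cast hm
  have wm : w ≤ m := by rw [hm]; exact Nat.le_mul_of_pos_left _ (by omega)
  have rM : 2 * (M : ℝ) ≤ r * M := mul_le_mul_of_nonneg_right r2 (by positivity)
  have F1 : (1 : ℝ) ≤ 16 * r * b * r ^ b := by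
    exact_mod_cast (Nat.succ_le_of_lt (by positivity) : 1 ≤ 16 * r * b * r ^ b)
  have ex : (M : ℝ) - 1 / (2 * r) * b * M / 2 ≤ -(4 * r * M) := by
    have : 10 * (r : ℝ) ≤ 1 / (2 * r) * b := by
      rw [one_div_mul_eq_div, le_div_iff₀ (by positivity)]; linarith
    linarith [mul_le_mul_of_nonneg_right this (Nat.cast_nonneg (α := ℝ) M)]
  have xx : ∀ s, 2 * s ≤ w → 1 / (2 * (r : ℝ)) * (m - s : ℕ) ≤ (w - s : ℕ) := by
    intro s hs
    rw [one_div_mul_eq_div, div_le_iff₀ (by positivity), Nat.cast_sub (by omega),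
      Nat.cast_sub (by omega), mr]
    have : 2 * (s : ℝ) ≤ w := by exact_mod_cast hs
    linarith [mul_le_mul_of_nonneg_left this r0.le, Nat.cast_nonneg (α := ℝ) s]
  have low : N * Real.exp (-(2 * r)) ^ S.card ≤ 2 * (((univ.powersetCard w).filter
      fun B : Finset (Om M b d k h) => S ⊆ B ∧ 2 * ee B < M).card : ℝ) := by
    have a1 := L1 w S (by omega) (by positivity) (xx _ s2)
    have a2 := Finset.card_filter_powersetCard_subset S univ w (Finset.subset_univ _) (by omega)
    have a3 := Finset.card_filter_add_card_filter_not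
      (s := (univ.powersetCard w).filter (S ⊆ ·)) (fun B => 2 * ee B < M)
    simp only [Finset.filter_filter, not_lt] at a3
    rw [a2, Finset.card_univ] at a3
    have a4 := ch_contain (m - S.card) (w - S.card) (y := Real.exp (-(2 * r))) (by positivity)
      S.card (by
        rw [← Nat.cast_add, Nat.sub_add_cancel (by omega), Nat.cast_sub (by omega), mr,
          Real.exp_neg, inv_mul_le_iff₀ (by positivity)]
        have : 2 * (S.card : ℝ) ≤ w := by exact_mod_cast s2
        have h5 := mul_le_mul_of_nonneg_right (Real.add_one_le_exp (2 * r))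
          (show (0 : ℝ) ≤ w - S.card by linarith [Nat.cast_nonneg (α := ℝ) S.card])
        linarith [Nat.cast_nonneg (α := ℝ) S.card, mul_le_mul_of_nonneg_left this r0.le])
    rw [Nat.sub_add_cancel (by omega), Nat.sub_add_cancel (by omega)] at a4
    have a5 : Real.exp (M - 1 / (2 * r) * b * M / 2) ≤ 1 / 2 := by
      refine (Real.exp_le_exp.2 (show _ ≤ -1 by linarith)).trans ?_
      rw [Real.exp_neg, inv_le_comm₀ (by positivity) (by norm_num)]
      linarith [Real.add_one_le_exp 1]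
    have a6 := a1.trans (mul_le_mul_of_nonneg_left a5 (by positivity))
    have a7 := congrArg (Nat.cast : ℕ → ℝ) a3
    push_cast at a7
    linarith
  set t : ℝ := (Fintype.card (Finset (U d k) × U d k × Fin 3) : ℝ) with ht
  set E : ℝ := 2 * t * Real.exp (2 * r * (b + k ^ (d + 1))) with hE
  have fin : ∀ ρ X : ℝ, (C.card : ℝ) ≤ N * ρ → 2 * r * S.card ≤ 2 * r * (b + k ^ (d + 1)) + X →
      E * (Real.exp X * ρ) ≤ 1 → 0 ≤ ρ → t * C.card ≤ (((univ.powersetCard w).filter
      fun B : Finset (Om M b d k h) => S ⊆ B ∧ 2 * ee B < M).card : ℝ) := by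
    intro ρ X a1 a2 a3 a4
    have t0 : 0 ≤ t := by positivity
    have N0 : 0 ≤ N := by positivity
    have b1 : 2 * t * ρ ≤ Real.exp (-(2 * r)) ^ S.card := by
      rw [← Real.exp_nat_mul, show (S.card : ℝ) * -(2 * r) = -(2 * r * S.card) by ring,
        Real.exp_neg, ← one_div, le_div_iff₀ (by positivity)]
      refine le_trans ?_ a3
      have := mul_le_mul_of_nonneg_left (Real.exp_le_exp.2 a2) (show 0 ≤ 2 * t * ρ by positivity)
      rw [Real.exp_add] at this
      rw [hE]
      linarith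
    have := mul_le_mul_of_nonneg_left b1 N0
    have := mul_le_mul_of_nonneg_left a1 t0
    linarith
  have Qr : (1 : ℝ) ≤ r ^ b := by exact_mod_cast Q1
  have E0 : 0 ≤ E := by positivity
  have E1 : E ≤ Real.exp G := le_trans (le_mul_of_one_le_right E0 F1) H4
  set Z : ℝ := 2 * r * ((d + 1) * k ^ d * h) with hZ
  have Z1 : Z * (4 * r ^ b) ≤ M := by rw [hZ]; exact_mod_cast I2
  have Z2 : 2 * r * (c.1.card * h) ≤ Z :=
    mul_le_mul_of_nonneg_left (by exact_mod_cast I3) (by positivity)
  have Z0 : 0 ≤ Z := by positivity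
  have scr := (Nat.cast_le (α := ℝ)).2 sc
  have scr2 := mul_le_mul_of_nonneg_left scr (show (0 : ℝ) ≤ 2 * r by positivity)
  push_cast at scr2
  have cc : ∀ B ∈ C, cs B = c.2.2 ∧ univ.filter (Miss B) = c.1 := fun B hB => by
    rw [← (Finset.mem_filter.1 hB).2.2]; exact ⟨rfl, rfl⟩
  refine (Nat.cast_le (α := ℝ)).1 ?_
  rw [Nat.cast_mul, ← ht]
  by_cases c0 : M ≤ 2 * ee A
  · have e : c.2.2 = 0 := by rw [← (cc A hA).1]; exact if_pos c0
    rw [if_pos e, if_neg (by rw [e]; decide)] at scr2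
    refine fin (Real.exp (-(4 * r * M))) (2 * r * M + 2 * Z) ?_ (by linarith) ?_ (by positivity)
    · have a1 := L1 w (∅ : Finset (Om M b d k h)) (by simp) (x := 1 / (2 * r)) (by positivity)
        (xx 0 (by omega))
      simp only [Finset.card_empty, Nat.sub_zero] at a1
      refine le_trans (le_trans (Nat.cast_le.2 (Finset.card_le_card fun B hB => ?_)) a1)
        (mul_le_mul_of_nonneg_left (Real.exp_le_exp.2 ex) (by positivity))
      refine Finset.mem_filter.2 ⟨(Finset.mem_filter.1 hB).1, Finset.empty_subset _, ?_⟩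
      have := (cc B hB).1
      rw [e, cs] at this
      by_contra hn
      rw [if_neg hn] at this
      split_ifs at this <;> simp at this
    · refine (mul_le_mul_of_nonneg_right E1 (by positivity)).trans ?_
      rw [← Real.exp_add, ← Real.exp_add, Real.exp_le_one_iff]
      have : G ≤ M := by
        rcases le_total G 0 with g | g
        · linarith
        · linarith [mul_le_mul_of_nonneg_left Qr g]
      linarith [mul_le_mul_of_nonneg_left Qr Z0]
  by_cases c1 : ∀ j, ¬ Full A j
  · have e : c.2.2 = 1 := by rw [← (cc A hA).1, cs, if_neg c0, if_pos c1]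
    rw [if_neg (by rw [e]; decide), if_neg (by rw [e]; decide)] at scr2
    refine fin ((m + 1) * Real.exp (-((1 / r) ^ b * M))) (2 * Z) ?_ (by linarith) ?_
      (by positivity)
    · have a1 := L2 (M := M) (b := b) (d := d) (k := k) (h := h) w (p := 1 / r) (by positivity)
        (by rw [div_lt_one r0]; linarith) (by rw [← hmm, mr]; field_simp)
      refine le_trans (Nat.cast_le.2 (Finset.card_le_card fun B hB => ?_)) a1
      refine Finset.mem_filter.2 ⟨(Finset.mem_filter.1 hB).1, ?_⟩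
      have := (cc B hB).1
      rw [e, cs] at this
      by_contra hn
      rw [if_neg hn] at this
      split_ifs at this <;> simp at this
    · set y : ℝ := (1 / r) ^ b * M with hy
      have y1 : y * r ^ b = M := by rw [hy, div_pow, one_pow]; field_simp
      have y2 : (m : ℝ) + 1 ≤ 16 * r * b * r ^ b * Real.exp (y / 4) := by
        have a1 := mul_le_mul_of_nonneg_left (Real.add_one_le_exp (y / 4))
          (show (0 : ℝ) ≤ 16 * r * b * r ^ b by positivity)
        have a2 : (m : ℝ) = 4 * r * b * (y * r ^ b) := by rw [y1, mr, hw]; push_cast; ring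
        linarith
      have y3 : 4 * Z ≤ y := le_of_mul_le_mul_right (a := (r : ℝ) ^ b) (by linarith) (by positivity)
      have y4 : 4 * G ≤ y := le_of_mul_le_mul_right (a := (r : ℝ) ^ b) (by linarith) (by positivity)
      calc _ ≤ E * (Real.exp (2 * Z) * ((16 * r * b * r ^ b * Real.exp (y / 4)) *
            Real.exp (-y))) := by gcongr
        _ = E * (16 * r * b * r ^ b) * (Real.exp (2 * Z) * Real.exp (y / 4) * Real.exp (-y)) := by
          ring
        _ ≤ Real.exp G * (Real.exp (2 * Z) * Real.exp (y / 4) * Real.exp (-y)) := by gcongr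
        _ ≤ 1 := by
          rw [← Real.exp_add, ← Real.exp_add, ← Real.exp_add, Real.exp_le_one_iff]; linarith
  · have e : c.2.2 = 2 := by rw [← (cc A hA).1, cs, if_neg c0, if_neg c1]
    rw [if_neg (by rw [e]; decide), if_pos e] at scr2
    obtain ⟨u, hu⟩ : ∃ u, Miss A u := by
      by_contra hn
      push Not at hn c1
      exact hA2 ⟨by omega, c1, hn⟩
    set y : ℝ := 1 / r * (k ^ d * h) with hy
    have y1 : y * r = k ^ d * h := by rw [hy]; field_simp
    refine fin (Real.exp (-y)) (y / 2) ?_ ?_ ?_ (by positivity)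
    · have a1 := L3 (M := M) (b := b) (h := h) w u (x := 1 / r) (by positivity)
        (by rw [← hmm, mr]; field_simp; rfl)
      refine le_trans (Nat.cast_le.2 (Finset.card_le_card fun B hB => ?_)) a1
      refine Finset.mem_filter.2 ⟨(Finset.mem_filter.1 hB).1, ?_⟩
      have : u ∈ univ.filter (Miss B) := by
        rw [(cc B hB).2, ← (cc A hA).2]; simpa using hu
      simpa using this
    · have a1 : 4 * (r : ℝ) ^ 2 * c.1.card ≤ k ^ d := by exact_mod_cast I1
      have a2 := mul_le_mul_of_nonneg_right a1 (Nat.cast_nonneg (α := ℝ) h)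
      have : 2 * r * (c.1.card * h) ≤ y / 2 := le_of_mul_le_mul_right (a := (r : ℝ))
        (by linarith) r0
      linarith
    · refine (mul_le_mul_of_nonneg_right E1 (by positivity)).trans ?_
      rw [← Real.exp_add, ← Real.exp_add, Real.exp_le_one_iff]
      have a1 : (1 : ℝ) ≤ k ^ d := one_le_pow₀ (by exact_mod_cast k0)
      have a2 := mul_le_mul_of_nonneg_right a1 (Nat.cast_nonneg (α := ℝ) h)
      have : 2 * G ≤ y := le_of_mul_le_mul_right (a := (r : ℝ)) (by linarith) r0
      linarith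

end Pool.Agent.H.MP_1a5e21_co
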