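import Pool.Agent.H.MP_1a5e21_co.C

namespace Pool.Agent.H.MP_1a5e21_co

open Finset Classical

theorem cardX {Ω : Type} [Fintype Ω] (w : ℕ) (p : Finset Ω → Prop) [DecidablePred p]
    [Fintype {A : Finset Ω // A.card = w}]
    [DecidablePred fun x : {A : Finset Ω // A.card = w} => p x.1] :
    (univ.filter fun x : {A : Finset Ω // A.card = w} => p x.1).card =
      ((univ.powersetCard w).filter p).card := by
  refine Finset.card_bij (fun x _ => x.1) (fun x hx => ?_) (fun x _ y _ h => Subtype.ext h)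
    (fun A hA => ?_)
  · simpa [Finset.mem_powersetCard, x.2] using hx
  · simp only [Finset.mem_filter, Finset.mem_powersetCard] at hA
    exact ⟨⟨A, hA.1.2⟩, by simpa using hA.2, rfl⟩

theorem main (r : ℕ) (hr : 2 ≤ r) : ∃ w : ℕ, 1 ≤ w ∧
    ∃ σ : Equiv.Perm {s : Finset (Fin (r * w)) // s.card = w},
      ∀ s t : {s : Finset (Fin (r * w)) // s.card = w},
        Disjoint s.1 t.1 → ¬ Disjoint (σ s).1 (σ t).1 := by
  obtain ⟨b, hb⟩ : ∃ b, b = 20 * r ^ 2 := ⟨_, rfl⟩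
  have b0 : 0 < b := by rw [hb]; positivity
  obtain ⟨d, hd⟩ : ∃ d, d + 1 = 256 * r ^ 5 * b * r ^ b :=
    ⟨256 * r ^ 5 * b * r ^ b - 1, Nat.sub_add_cancel (Nat.succ_le_of_lt (by positivity))⟩
  obtain ⟨k, hk⟩ : ∃ k, k = 32 * r ^ 2 * b * (d + 1) * r ^ b := ⟨_, rfl⟩
  have k0 : 0 < k := by rw [hk]; positivity
  obtain ⟨G, hG⟩ : ∃ G : ℝ, G = 2 * (Fintype.card (Finset (U d k) × U d k × Fin 3) : ℝ) *
      Real.exp (2 * r * (b + k ^ (d + 1))) * (16 * r * b * r ^ b) := ⟨_, rfl⟩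
  have G0 : 0 ≤ G := by rw [hG]; positivity
  obtain ⟨g, hg⟩ := exists_nat_gt (G * (4 * r ^ b) + G * (2 * r))
  have a1 : (0 : ℝ) ≤ G * (4 * r ^ b) := by positivity
  have a2 : (0 : ℝ) ≤ G * (2 * r) := by positivity
  have g0 : 0 < g := by
    have : (0 : ℝ) < g := by linarith
    exact_mod_cast this
  obtain ⟨M, hM⟩ : ∃ M, M = k ^ (d + 1) * g := ⟨_, rfl⟩
  obtain ⟨r', hr'⟩ : ∃ r', 4 * r = r' + 1 := ⟨4 * r - 1, by omega⟩
  obtain ⟨h, hh⟩ : ∃ h, h = r' * b * g := ⟨_, rfl⟩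
  obtain ⟨w, hw⟩ : ∃ w, w = 4 * b * M := ⟨_, rfl⟩
  have M0 : 0 < M := by rw [hM]; positivity
  have r0 : 0 < r' := by omega
  have h0 : 0 < h := by rw [hh]; positivity
  have hm : Fintype.card (Om M b d k h) = r * w := by
    simp only [Fintype.card_sum, Fintype.card_prod, Fintype.card_fin, Fintype.card_pi,
      Finset.prod_const, Finset.card_univ]
    rw [hw, hh, hM]
    calc _ = (r' + 1) * b * (k ^ (d + 1) * g) := by ring
      _ = _ := by rw [← hr']; ring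
  have gM : (g : ℝ) ≤ M := by
    rw [hM]; exact_mod_cast Nat.le_mul_of_pos_left _ (by positivity)
  have gh : (g : ℝ) ≤ h := by
    rw [hh]; exact_mod_cast Nat.le_mul_of_pos_left _ (by positivity)
  have H := cls r w ⟨0, M0⟩ ⟨0, b0⟩ ⟨0, h0⟩ (fun _ => ⟨0, k0⟩ : U d k) G hr hm hw hb.ge (by
      calc _ = (d + 1) * (d + 1) := by rw [hk]; nth_rewrite 2 [hd]; ring
        _ ≤ 2 ^ (d + 1) * 2 ^ (d + 1) :=
          Nat.mul_le_mul Nat.lt_two_pow_self.le Nat.lt_two_pow_self.le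
        _ = _ := by rw [← mul_pow]; norm_num)
    hk.ge (by rw [hM]; exact Nat.le_mul_of_pos_right _ g0)
    (by rw [← hG]; linarith [Real.add_one_le_exp G]) (by linarith) (by linarith)
  let _ := ma M b d k h w
  have : Nonempty (U d k) := ⟨fun _ => ⟨0, k0⟩⟩
  obtain ⟨σ, hσ⟩ := pairing (G := Equiv.Perm (Fin M))
    (X := {A : Finset (Om M b d k h) // A.card = w}) (fun x y => R x.1 y.1)
    (fun g _ _ r => r.mv g) (fun _ _ r => r.symm) (fun x => T x.1) (fun x t => hT ⟨0, b0⟩ x.1 t)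
    (fun x => key (fun _ => ⟨0, k0⟩) x.1)
    (fun c y => SS ⟨0, M0⟩ ⟨0, b0⟩ ⟨0, h0⟩ c ⊆ y.1 ∧ 2 * ee y.1 < M)
    (fun x y _ p => hP _ _ _ _ x.1 y.1 (by rw [x.2, hw]; nlinarith [Nat.mul_pos M0 b0]) p.1 p.2)
    (fun c => by
      have := H c
      rw [← cardX, ← cardX] at this
      convert this)
  let φ : {A : Finset (Om M b d k h) // A.card = w} ≃ {s : Finset (Fin (r * w)) // s.card = w} :=
    Equiv.subtypeEquiv (Fintype.equivFinOfCardEq hm).finsetCongr (fun A => by simp)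
  have hφ : ∀ x y, Disjoint (φ x).1 (φ y).1 ↔ Disjoint x.1 y.1 := fun x y =>
    Finset.disjoint_map _
  refine ⟨w, by rw [hw]; exact Nat.succ_le_of_lt (by positivity), φ.permCongr σ,
    fun s t h1 h2 => ?_⟩
  obtain ⟨s, rfl⟩ := φ.surjective s
  obtain ⟨t, rfl⟩ := φ.surjective t
  simp only [Equiv.permCongr_apply, Equiv.symm_apply_apply] at h2
  exact (hσ s).inter (hσ t) ((hφ _ _).1 h1) ((hφ _ _).1 h2)

end Pool.Agent.H.MP_1a5e21_co
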